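import Mathlib

/-! The Kikuchi matrix for `r = 2` and its top eigenvalue. -/

namespace Pool.Agent.R967.KM

open Matrix Finset

/-- rows and columns -/
abbrev VV (n l : ℕ) := {K : Finset (Fin n) // K.card = l}

variable {n l : ℕ}

/-- the Kikuchi matrix, `r = 2` -/
noncomputable def AA (n l : ℕ) (Z : Finset (Fin n) → ℝ) : Matrix (VV n l) (VV n l) ℝ :=
  Matrix.of fun I J => if (symmDiff I.1 J.1).card = 2 then Z (symmDiff I.1 J.1) else 0

/-- the quadratic form -/
noncomputable def qf (Z : Finset (Fin n) → ℝ) (v : VV n l → ℝ) : ℝ :=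
  dotProduct v (Matrix.mulVec (AA n l Z) v)

/-- the top eigenvalue -/
noncomputable def ff (n l : ℕ) (Z : Finset (Fin n) → ℝ) : ℝ :=
  sSup {t : ℝ | ∃ v : VV n l → ℝ, dotProduct v v = 1 ∧ t = dotProduct v (Matrix.mulVec (AA n l Z) v)}

/-- the pairs with symmetric difference `S` -/
def PP (n l : ℕ) (S : Finset (Fin n)) : Finset (VV n l × VV n l) :=
  Finset.univ.filter fun p => symmDiff p.1.1 p.2.1 = S

/-- the coefficient of `Z S` -/
noncomputable def aa (S : Finset (Fin n)) (v : VV n l → ℝ) : ℝ :=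
  ∑ p ∈ PP n l S, v p.1 * v p.2

/-- sets with two elements -/
def T2 (n : ℕ) : Finset (Finset (Fin n)) := Finset.univ.filter fun S => S.card = 2

lemma mem_T2 {S : Finset (Fin n)} : S ∈ T2 n ↔ S.card = 2 := by simp [T2]

lemma qf_eq (Z : Finset (Fin n) → ℝ) (v : VV n l → ℝ) :
    qf Z v = ∑ S ∈ T2 n, Z S * aa S v := by
  have h1 : qf Z v = ∑ p : VV n l × VV n l,
      (if (symmDiff p.1.1 p.2.1).card = 2 then Z (symmDiff p.1.1 p.2.1) else 0) *
        (v p.1 * v p.2) := by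
    rw [Fintype.sum_prod_type]
    unfold qf dotProduct mulVec AA dotProduct
    refine Finset.sum_congr rfl fun I _ => ?_
    rw [Finset.mul_sum]
    refine Finset.sum_congr rfl fun J _ => ?_
    simp only [Matrix.of_apply]
    ring
  rw [h1]
  have h2 : ∀ S : Finset (Fin n), Z S * aa S v =
      ∑ p : VV n l × VV n l, if symmDiff p.1.1 p.2.1 = S then Z S * (v p.1 * v p.2) else 0 := by
    intro S
    rw [aa, Finset.mul_sum, PP, Finset.sum_filter]
  simp only [h2]
  rw [Finset.sum_comm]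
  refine Finset.sum_congr rfl fun p _ => ?_
  rw [Finset.sum_ite_eq]
  by_cases hc : (symmDiff p.1.1 p.2.1).card = 2
  · rw [if_pos hc, if_pos (mem_T2.2 hc)]
  · rw [if_neg hc, if_neg (fun hh => hc (mem_T2.1 hh)), zero_mul]

lemma qf_le (Z : Finset (Fin n) → ℝ) {v : VV n l → ℝ} (hv : dotProduct v v = 1) :
    |qf Z v| ≤ ∑ S ∈ T2 n, |Z S| * |aa S v| := by
  rw [qf_eq]
  refine (Finset.abs_sum_le_sum_abs _ _).trans (le_of_eq ?_)
  exact Finset.sum_congr rfl fun S _ => abs_mul _ _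

/-- the mass at a point -/
noncomputable def pp (i : Fin n) (v : VV n l → ℝ) : ℝ :=
  ∑ I : VV n l, if i ∈ I.1 then v I ^ 2 else 0

lemma pp_nonneg (i : Fin n) (v : VV n l → ℝ) : 0 ≤ pp i v :=
  Finset.sum_nonneg fun I _ => by split_ifs <;> positivity

lemma sum_pp (v : VV n l → ℝ) (hv : dotProduct v v = 1) : ∑ i, pp i v = l := by
  unfold pp
  rw [Finset.sum_comm]
  have h1 : ∀ I : VV n l, (∑ i : Fin n, if i ∈ I.1 then v I ^ 2 else 0) = l * v I ^ 2 := by
    intro I
    rw [← Finset.sum_filter, Finset.sum_const, Finset.filter_mem_eq_inter, Finset.univ_inter, I.2,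
      nsmul_eq_mul]
  simp only [h1]
  rw [← Finset.mul_sum]
  have h2 : ∑ I : VV n l, v I ^ 2 = 1 := by
    rw [← hv]
    exact Finset.sum_congr rfl fun I _ => by ring
  rw [h2, mul_one]

/-- the ordered pairs -/
def PO (n l : ℕ) (i j : Fin n) : Finset (VV n l × VV n l) :=
  Finset.univ.filter fun p => symmDiff p.1.1 p.2.1 = {i, j} ∧ i ∈ p.1.1 ∧ j ∈ p.2.1

lemma PO_sq (i j : Fin n) (v : VV n l → ℝ) :
    (∑ p ∈ PO n l i j, v p.1 * v p.2) ^ 2 ≤ pp i v * pp j v := by
  have h1 := Finset.sum_mul_sq_le_sq_mul_sq (PO n l i j) (fun p => v p.1) (fun p => v p.2)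
  refine h1.trans ?_
  have hpp : ∀ k : Fin n, pp k v = ∑ I ∈ Finset.univ.filter (fun I : VV n l => k ∈ I.1),
      v I ^ 2 := fun k => by rw [pp, Finset.sum_filter]
  have h2 : ∑ p ∈ PO n l i j, v p.1 ^ 2 ≤ pp i v := by
    rw [hpp]
    have hinj : Set.InjOn (fun p : VV n l × VV n l => p.1) (PO n l i j) := by
      rintro ⟨I, J⟩ h ⟨I', J'⟩ h' he
      simp only [PO, coe_filter, mem_univ, true_and, Set.mem_ofPred_eq] at h h' he
      subst he
      have : J.1 = J'.1 := by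
        have e1 : symmDiff I.1 (symmDiff I.1 J.1) = symmDiff I.1 (symmDiff I.1 J'.1) := by
          rw [h.1, h'.1]
        simpa [symmDiff_symmDiff_cancel_left] using e1
      rw [Prod.mk.injEq]
      exact ⟨rfl, Subtype.ext this⟩
    rw [← Finset.sum_image (f := fun I : VV n l => v I ^ 2) hinj]
    refine Finset.sum_le_sum_of_subset_of_nonneg ?_ fun _ _ _ => sq_nonneg _
    intro I hI
    simp only [PO, mem_image, mem_filter, mem_univ, true_and] at hI ⊢
    obtain ⟨p, hp, rfl⟩ := hI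
    exact hp.2.1
  have h3 : ∑ p ∈ PO n l i j, v p.2 ^ 2 ≤ pp j v := by
    rw [hpp]
    have hinj : Set.InjOn (fun p : VV n l × VV n l => p.2) (PO n l i j) := by
      rintro ⟨I, J⟩ h ⟨I', J'⟩ h' he
      simp only [PO, coe_filter, mem_univ, true_and, Set.mem_ofPred_eq] at h h' he
      subst he
      have : I.1 = I'.1 := by
        have e1 : symmDiff (symmDiff I.1 J.1) J.1 = symmDiff (symmDiff I'.1 J.1) J.1 := by
          rw [h.1, h'.1]
        simpa [symmDiff_symmDiff_cancel_right] using e1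
      rw [Prod.mk.injEq]
      exact ⟨Subtype.ext this, rfl⟩
    rw [← Finset.sum_image (f := fun I : VV n l => v I ^ 2) hinj]
    refine Finset.sum_le_sum_of_subset_of_nonneg ?_ fun _ _ _ => sq_nonneg _
    intro I hI
    simp only [PO, mem_image, mem_filter, mem_univ, true_and] at hI ⊢
    obtain ⟨p, hp, rfl⟩ := hI
    exact hp.2.2
  exact mul_le_mul h2 h3 (Finset.sum_nonneg fun _ _ => sq_nonneg _) (pp_nonneg _ _)

lemma PP_split {i j : Fin n} (hij : i ≠ j) (v : VV n l → ℝ) :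
    aa {i, j} v = 2 * ∑ p ∈ PO n l i j, v p.1 * v p.2 := by
  have key : ∀ p : VV n l × VV n l, symmDiff p.1.1 p.2.1 = {i, j} →
      ((i ∈ p.1.1 ∧ j ∈ p.2.1) ∨ (j ∈ p.1.1 ∧ i ∈ p.2.1)) ∧
      ¬ ((i ∈ p.1.1 ∧ j ∈ p.2.1) ∧ (j ∈ p.1.1 ∧ i ∈ p.2.1)) := by
    rintro ⟨I, J⟩ h
    have hcard : (I.1 \ J.1).card = (J.1 \ I.1).card := by
      have a1 := Finset.card_sdiff_add_card_inter I.1 J.1
      have a2 := Finset.card_sdiff_add_card_inter J.1 I.1
      rw [Finset.inter_comm J.1 I.1] at a2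
      rw [I.2] at a1
      rw [J.2] at a2
      omega
    have hmem : ∀ k, (k ∈ I.1 ∧ k ∉ J.1) ∨ (k ∈ J.1 ∧ k ∉ I.1) ↔ k = i ∨ k = j := by
      intro k
      have := Finset.ext_iff.1 h k
      simpa [Finset.mem_symmDiff] using this
    have hi := (hmem i).2 (Or.inl rfl)
    have hj := (hmem j).2 (Or.inr rfl)
    have hunion : (I.1 \ J.1) ∪ (J.1 \ I.1) = {i, j} := h
    have hdis : Disjoint (I.1 \ J.1) (J.1 \ I.1) := disjoint_sdiff_sdiff
    have hc2 : (I.1 \ J.1).card + (J.1 \ I.1).card = 2 := by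
      rw [← Finset.card_union_of_disjoint hdis, hunion, Finset.card_pair hij]
    have hc1 : (I.1 \ J.1).card = 1 := by omega
    have hc1' : (J.1 \ I.1).card = 1 := by omega
    rw [Finset.card_eq_one] at hc1 hc1'
    obtain ⟨x, hx⟩ := hc1
    obtain ⟨y, hy⟩ := hc1'
    have memx : ∀ k, k ∈ I.1 ∧ k ∉ J.1 → k = x := by
      intro k hk
      have : k ∈ I.1 \ J.1 := Finset.mem_sdiff.2 hk
      rw [hx] at this
      exact Finset.mem_singleton.1 this
    have memy : ∀ k, k ∈ J.1 ∧ k ∉ I.1 → k = y := by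
      intro k hk
      have : k ∈ J.1 \ I.1 := Finset.mem_sdiff.2 hk
      rw [hy] at this
      exact Finset.mem_singleton.1 this
    rcases hi with hi | hi <;> rcases hj with hj | hj
    · exact absurd ((memx i hi).trans (memx j hj).symm) hij
    · exact ⟨Or.inl ⟨hi.1, hj.1⟩, fun h => hj.2 h.2.1⟩
    · exact ⟨Or.inr ⟨hj.1, hi.1⟩, fun h => hi.2 h.1.1⟩
    · exact absurd ((memy i hi).trans (memy j hj).symm) hij
  have h1 : PP n l {i, j} = PO n l i j ∪ PO n l j i := by
    ext p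
    simp only [PP, PO, mem_filter, mem_univ, true_and, mem_union]
    constructor
    · intro h
      rcases (key p h).1 with h' | h'
      · exact Or.inl ⟨h, h'⟩
      · exact Or.inr ⟨by rw [h, Finset.pair_comm], h'⟩
    · rintro (h | h)
      · exact h.1
      · rw [h.1, Finset.pair_comm]
  have h2 : Disjoint (PO n l i j) (PO n l j i) := by
    rw [Finset.disjoint_left]
    intro p hp hp'
    simp only [PO, mem_filter, mem_univ, true_and] at hp hp'
    exact (key p hp.1).2 ⟨hp.2, hp'.2⟩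
  have h3 : ∑ p ∈ PO n l j i, v p.1 * v p.2 = ∑ p ∈ PO n l i j, v p.1 * v p.2 := by
    refine Finset.sum_bij (fun p _ => (p.2, p.1)) ?_ ?_ ?_ ?_
    · intro p hp
      simp only [PO, mem_filter, mem_univ, true_and] at hp ⊢
      refine ⟨?_, hp.2.2, hp.2.1⟩
      rw [symmDiff_comm, hp.1, Finset.pair_comm]
    · intro p _ q _ h
      simp only [Prod.mk.injEq] at h
      exact Prod.ext h.2 h.1
    · intro q hq
      refine ⟨(q.2, q.1), ?_, rfl⟩
      simp only [PO, mem_filter, mem_univ, true_and] at hq ⊢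
      refine ⟨?_, hq.2.2, hq.2.1⟩
      rw [symmDiff_comm, hq.1, Finset.pair_comm]
    · intro p _
      ring
  rw [aa, h1, Finset.sum_union h2, h3]
  ring

lemma aa_sq_le {i j : Fin n} (hij : i ≠ j) (v : VV n l → ℝ) :
    aa {i, j} v ^ 2 ≤ 4 * (pp i v * pp j v) := by
  rw [PP_split hij, mul_pow]
  have := PO_sq i j v
  nlinarith

lemma sum_aa_sq (v : VV n l → ℝ) (hv : dotProduct v v = 1) :
    ∑ S ∈ T2 n, aa S v ^ 2 ≤ 4 * (l : ℝ) ^ 2 := by
  have hsub : T2 n ⊆ (Finset.univ : Finset (Fin n)).offDiag.image (fun p => {p.1, p.2}) := by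
    intro S hS
    rw [mem_T2, Finset.card_eq_two] at hS
    obtain ⟨x, y, hxy, rfl⟩ := hS
    exact Finset.mem_image.2 ⟨(x, y), by simp [hxy], rfl⟩
  calc ∑ S ∈ T2 n, aa S v ^ 2
      ≤ ∑ S ∈ (Finset.univ : Finset (Fin n)).offDiag.image (fun p => ({p.1, p.2} : Finset (Fin n))),
        aa S v ^ 2 := Finset.sum_le_sum_of_subset_of_nonneg hsub fun _ _ _ => sq_nonneg _
    _ ≤ ∑ p ∈ (Finset.univ : Finset (Fin n)).offDiag, aa {p.1, p.2} v ^ 2 :=
        Finset.sum_image_le_of_nonneg fun _ _ => sq_nonneg _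
    _ ≤ ∑ p ∈ (Finset.univ : Finset (Fin n)).offDiag, 4 * (pp p.1 v * pp p.2 v) := by
        refine Finset.sum_le_sum fun p hp => aa_sq_le ?_ v
        simpa using hp
    _ ≤ ∑ p : Fin n × Fin n, 4 * (pp p.1 v * pp p.2 v) := by
        refine Finset.sum_le_sum_of_subset_of_nonneg (Finset.subset_univ _) fun p _ _ => ?_
        have := mul_nonneg (pp_nonneg p.1 v) (pp_nonneg p.2 v)
        positivity
    _ = 4 * (l : ℝ) ^ 2 := by
        rw [← Finset.mul_sum, Fintype.sum_prod_type]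
        simp only [← Finset.mul_sum, sum_pp v hv]
        rw [← Finset.sum_mul, sum_pp v hv]
        ring

lemma aa_abs_le (v : VV n l → ℝ) (hv : dotProduct v v = 1) {S : Finset (Fin n)}
    (hS : S ∈ T2 n) : |aa S v| ≤ 2 * l := by
  have h1 : aa S v ^ 2 ≤ 4 * (l : ℝ) ^ 2 :=
    (Finset.single_le_sum (f := fun S => aa S v ^ 2) (fun _ _ => sq_nonneg _) hS).trans
      (sum_aa_sq v hv)
  apply abs_le_of_sq_le_sq _ (by positivity)
  nlinarith

lemma qf_abs_le (Z : Finset (Fin n) → ℝ) {v : VV n l → ℝ} (hv : dotProduct v v = 1) :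
    |qf Z v| ≤ 2 * l * ∑ S ∈ T2 n, |Z S| := by
  refine (qf_le Z hv).trans ?_
  rw [Finset.mul_sum]
  refine Finset.sum_le_sum fun S hS => ?_
  have := aa_abs_le v hv hS
  have h0 := abs_nonneg (Z S)
  nlinarith

lemma bdd (Z : Finset (Fin n) → ℝ) : BddAbove {t : ℝ | ∃ v : VV n l → ℝ, dotProduct v v = 1 ∧
    t = dotProduct v (Matrix.mulVec (AA n l Z) v)} := by
  refine ⟨2 * l * ∑ S ∈ T2 n, |Z S|, ?_⟩
  rintro t ⟨v, hv, rfl⟩
  exact (le_abs_self _).trans (qf_abs_le Z hv)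

lemma le_ff (Z : Finset (Fin n) → ℝ) {v : VV n l → ℝ} (hv : dotProduct v v = 1) :
    qf Z v ≤ ff n l Z := le_csSup (bdd Z) ⟨v, hv, rfl⟩

lemma exists_unit (h : Nonempty (VV n l)) : ∃ v : VV n l → ℝ, dotProduct v v = 1 := by
  obtain ⟨I⟩ := h
  exact ⟨Pi.single I 1, by simp⟩

lemma exists_max (h : Nonempty (VV n l)) (Z : Finset (Fin n) → ℝ) :
    ∃ v : VV n l → ℝ, dotProduct v v = 1 ∧ ff n l Z = qf Z v := by
  have hc : IsCompact {v : VV n l → ℝ | dotProduct v v = 1} := by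
    apply Metric.isCompact_of_isClosed_isBounded
    · refine isClosed_eq ?_ continuous_const
      unfold dotProduct
      fun_prop
    · refine (Metric.isBounded_closedBall (x := (0 : VV n l → ℝ)) (r := 1)).subset ?_
      intro v hv
      rw [mem_closedBall_zero_iff, pi_norm_le_iff_of_nonneg zero_le_one]
      intro I
      have h1 : v I * v I ≤ 1 := by
        rw [← show dotProduct v v = 1 from hv]
        exact Finset.single_le_sum (f := fun I => v I * v I) (fun _ _ => mul_self_nonneg _)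
          (Finset.mem_univ I)
      rw [Real.norm_eq_abs]
      apply abs_le_of_sq_le_sq _ zero_le_one
      nlinarith
  have hcont : Continuous (fun v : VV n l → ℝ => qf Z v) := by
    unfold qf mulVec dotProduct
    fun_prop
  obtain ⟨v, hv, hmax⟩ := hc.exists_isMaxOn (exists_unit h) hcont.continuousOn
  refine ⟨v, hv, ?_⟩
  apply le_antisymm
  · have hne : Set.Nonempty {t : ℝ | ∃ v : VV n l → ℝ, dotProduct v v = 1 ∧
        t = dotProduct v (Matrix.mulVec (AA n l Z) v)} := ⟨qf Z v, v, hv, rfl⟩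
    refine csSup_le hne ?_
    rintro t ⟨w, hw, rfl⟩
    exact hmax hw
  · exact le_ff Z hv

lemma qf_sub (Z Z' : Finset (Fin n) → ℝ) (v : VV n l → ℝ) :
    qf Z v - qf Z' v = ∑ S ∈ T2 n, (Z S - Z' S) * aa S v := by
  rw [qf_eq, qf_eq, ← Finset.sum_sub_distrib]
  exact Finset.sum_congr rfl fun S _ => by ring

lemma ff_sub_le (h : Nonempty (VV n l)) (Z Z' : Finset (Fin n) → ℝ) :
    ff n l Z - ff n l Z' ≤ 2 * l * ∑ S ∈ T2 n, |Z S - Z' S| := by
  obtain ⟨v, hv, he⟩ := exists_max h Z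
  have h1 := le_ff Z' hv
  have h2 : qf Z v - qf Z' v ≤ 2 * l * ∑ S ∈ T2 n, |Z S - Z' S| := by
    rw [qf_sub, Finset.mul_sum]
    refine Finset.sum_le_sum fun S hS => ?_
    have := aa_abs_le v hv hS
    calc (Z S - Z' S) * aa S v ≤ |(Z S - Z' S) * aa S v| := le_abs_self _
      _ = |Z S - Z' S| * |aa S v| := abs_mul _ _
      _ ≤ |Z S - Z' S| * (2 * l) := mul_le_mul_of_nonneg_left this (abs_nonneg _)
      _ = 2 * l * |Z S - Z' S| := by ring
  rw [he]
  linarith

lemma ff_abs_sub_le (h : Nonempty (VV n l)) (Z Z' : Finset (Fin n) → ℝ) :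
    |ff n l Z - ff n l Z'| ≤ 2 * l * ∑ S ∈ T2 n, |Z S - Z' S| := by
  rw [abs_le]
  constructor
  · have := ff_sub_le h Z' Z
    have e : ∑ S ∈ T2 n, |Z' S - Z S| = ∑ S ∈ T2 n, |Z S - Z' S| :=
      Finset.sum_congr rfl fun S _ => abs_sub_comm _ _
    rw [e] at this
    linarith
  · exact ff_sub_le h Z Z'

lemma ff_abs_le (h : Nonempty (VV n l)) (Z : Finset (Fin n) → ℝ) :
    |ff n l Z| ≤ 2 * l * ∑ S ∈ T2 n, |Z S| := by
  obtain ⟨v, hv, he⟩ := exists_max h Z
  rw [he]
  exact qf_abs_le Z hv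

lemma continuous_ff (h : Nonempty (VV n l)) : Continuous (ff n l) := by
  rw [continuous_iff_continuousAt]
  intro Z
  rw [ContinuousAt, tendsto_iff_dist_tendsto_zero]
  have h1 : Filter.Tendsto (fun Y : Finset (Fin n) → ℝ => 2 * (l : ℝ) * ∑ S ∈ T2 n, |Y S - Z S|)
      (nhds Z) (nhds 0) := by
    have : Continuous (fun Y : Finset (Fin n) → ℝ => 2 * (l : ℝ) * ∑ S ∈ T2 n, |Y S - Z S|) := by
      fun_prop
    have h2 := this.tendsto Z
    simpa using h2
  refine squeeze_zero (fun _ => dist_nonneg) (fun Y => ?_) h1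
  rw [Real.dist_eq]
  exact ff_abs_sub_le h Y Z

/-- sign change -/
def sgn (x : Fin n → ℝ) (S : Finset (Fin n)) : ℝ := ∏ i ∈ S, x i

lemma sgn_mul {x : Fin n → ℝ} (hx : ∀ i, x i ^ 2 = 1) (S T : Finset (Fin n)) :
    sgn x (symmDiff S T) = sgn x S * sgn x T := by
  have h1 : sgn x S = sgn x (S \ T) * sgn x (S ∩ T) := by
    unfold sgn
    rw [← Finset.prod_union (Finset.disjoint_sdiff_inter S T), Finset.sdiff_union_inter]
  have h2 : sgn x T = sgn x (T \ S) * sgn x (S ∩ T) := by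
    unfold sgn
    rw [Finset.inter_comm, ← Finset.prod_union (Finset.disjoint_sdiff_inter T S),
      Finset.sdiff_union_inter]
  have h3 : sgn x (symmDiff S T) = sgn x (S \ T) * sgn x (T \ S) := by
    unfold sgn
    rw [← Finset.prod_union disjoint_sdiff_sdiff]
    rfl
  have h4 : sgn x (S ∩ T) ^ 2 = 1 := by
    unfold sgn
    rw [← Finset.prod_pow]
    exact Finset.prod_eq_one fun i _ => hx i
  rw [h1, h2, h3]
  linear_combination (-(sgn x (S \ T) * sgn x (T \ S))) * h4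

lemma sgn_sq {x : Fin n → ℝ} (hx : ∀ i, x i ^ 2 = 1) (S : Finset (Fin n)) :
    sgn x S ^ 2 = 1 := by
  unfold sgn
  rw [← Finset.prod_pow]
  exact Finset.prod_eq_one fun i _ => hx i

lemma qf_sgn {x : Fin n → ℝ} (hx : ∀ i, x i ^ 2 = 1) (Z : Finset (Fin n) → ℝ)
    (v : VV n l → ℝ) :
    qf (fun S => sgn x S * Z S) v = qf Z (fun I => sgn x I.1 * v I) := by
  rw [qf_eq, qf_eq]
  refine Finset.sum_congr rfl fun S _ => ?_
  have : aa S (fun I : VV n l => sgn x I.1 * v I) = sgn x S * aa S v := by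
    unfold aa
    rw [Finset.mul_sum]
    refine Finset.sum_congr rfl fun p hp => ?_
    have hp' : symmDiff p.1.1 p.2.1 = S := by simpa [PP] using hp
    rw [← hp', sgn_mul hx]
    ring
  rw [this]
  ring

lemma ff_sgn_le {x : Fin n → ℝ} (hx : ∀ i, x i ^ 2 = 1) (h : Nonempty (VV n l))
    (Z : Finset (Fin n) → ℝ) :
    ff n l (fun S => sgn x S * Z S) ≤ ff n l Z := by
  obtain ⟨v, hv, he⟩ := exists_max h (fun S => sgn x S * Z S)
  rw [he, qf_sgn hx]
  apply le_ff
  rw [← hv]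
  unfold dotProduct
  refine Finset.sum_congr rfl fun I _ => ?_
  have := sgn_sq hx I.1
  linear_combination (v I * v I) * this

lemma ff_sgn {x : Fin n → ℝ} (hx : ∀ i, x i ^ 2 = 1) (h : Nonempty (VV n l))
    (Z : Finset (Fin n) → ℝ) :
    ff n l (fun S => sgn x S * Z S) = ff n l Z := by
  apply le_antisymm (ff_sgn_le hx h Z)
  have h1 := ff_sgn_le hx h (fun S => sgn x S * Z S)
  have h2 : (fun S => sgn x S * (sgn x S * Z S)) = Z := by
    funext S
    have := sgn_sq hx S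
    linear_combination (Z S) * this
  rwa [h2] at h1

end Pool.Agent.R967.KM
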