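import Pool.Agent.R967.KM.Lower

/-! The shift bound for the top eigenvalue itself. -/

namespace Pool.Agent.R967.KM

open Finset MeasureTheory ProbabilityTheory Matrix Filter Topology

variable {n l : ℕ}

lemma tendsto_tr (h : Nonempty (VV n l)) (a : Finset (Fin n) → ℝ) :
    Tendsto (fun B : ℕ => ∫ z, tr (B : ℝ) (ff n l (z + a)) ∂(GG (Finset (Fin n)))) atTop
      (𝓝 (∫ z, ff n l (z + a) ∂(GG (Finset (Fin n))))) := by
  have hc : Continuous (fun z : Finset (Fin n) → ℝ => ff n l (z + a)) :=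
    (continuous_ff h).comp (continuous_id.add continuous_const)
  apply tendsto_integral_of_dominated_convergence (fun z => |ff n l (z + a)|)
  · intro B
    exact ((tr_measurable _).comp hc.measurable).aestronglyMeasurable
  · exact (ff_shift_integrable h a).abs
  · intro B
    exact Eventually.of_forall fun z => tr_abs_le _ (Nat.cast_nonneg _) _
  · refine Eventually.of_forall fun z => ?_
    obtain ⟨B, hB⟩ := exists_nat_ge |ff n l (z + a)|
    refine tendsto_const_nhds.congr' ?_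
    filter_upwards [eventually_ge_atTop B] with k hk
    exact (tr_eq (hB.trans (by exact_mod_cast hk))).symm

/-- the shift bound -/
theorem main_bound (h : Nonempty (VV n l)) (hn : 0 < n) {c s : ℝ}
    (hc : c ^ 2 * (4 * n) = 1) (hs : 0 < s) :
    ∫ z, ff n l (z + hh c 1) ∂(GG (Finset (Fin n))) ≤
      ∫ z, ff n l z ∂(GG (Finset (Fin n))) +
      (4 * (l : ℝ) ^ 2 * (1 + C8) * Real.sqrt n / (2 * s) + s / 2 * CE) := by
  have h1 := tendsto_tr h (hh c (1 : Fin n → ℤˣ))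
  have h2 := tendsto_tr h (0 : Finset (Fin n) → ℝ)
  simp only [add_zero] at h2
  have h3 := h1.sub h2
  have h4 := le_of_tendsto' h3 fun B => shift_bound h hn (Nat.cast_nonneg B) hc hs
  linarith

/-- the matrix of the statement -/
lemma matrix_eq (c : ℝ) (Z : Finset (Fin n) → ℝ) :
    AA n l (Z + hh c 1) = Matrix.of fun I J : VV n l =>
      if (symmDiff I.1 J.1).card = 2 then c + Z (symmDiff I.1 J.1) else 0 := by
  ext I J
  simp only [AA, Matrix.of_apply, Pi.add_apply, hh, mem_T2]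
  split_ifs
  · have : sgn (ee (1 : Fin n → ℤˣ)) (symmDiff I.1 J.1) = 1 := by
      unfold sgn ee
      simp
    rw [this]
    ring
  · rfl

lemma matrix_eq0 (Z : Finset (Fin n) → ℝ) :
    AA n l Z = Matrix.of fun I J : VV n l =>
      if (symmDiff I.1 J.1).card = 2 then 0 + Z (symmDiff I.1 J.1) else 0 := by
  ext I J
  simp only [AA, Matrix.of_apply, zero_add]

lemma nonempty_VV (h : l ≤ n) : Nonempty (VV n l) := by
  obtain ⟨s, _, hs⟩ := Finset.exists_subset_card_eq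
    (s := (Finset.univ : Finset (Fin n))) (n := l) (by simpa using h)
  exact ⟨⟨s, hs⟩⟩

/-- no gap at any size: the ratio tends to one -/
theorem no_gap (hl : 0 < l) {ε : ℝ} (hε : 0 < ε)
    (H : ∀ᶠ n : ℕ in atTop, 1 + ε ≤
      (∫ z, ff n l (z + hh (1 / 2 * (n : ℝ) ^ (-((2 : ℕ) : ℝ) / 4)) 1) ∂(GG (Finset (Fin n)))) /
        ∫ z, ff n l z ∂(GG (Finset (Fin n)))) : False := by
  set M : ℝ := (2 * (l : ℝ) ^ 2 * (1 + C8) + CE / 2) * 2 / (ε * kap) with hM
  have hk := kap_pos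
  have t1 : Tendsto (fun n : ℕ => Real.sqrt (Real.sqrt (n : ℝ))) atTop atTop :=
    Real.tendsto_sqrt_atTop.comp (Real.tendsto_sqrt_atTop.comp tendsto_natCast_atTop_atTop)
  obtain ⟨n, ⟨hn1, hn2⟩, hn3⟩ := ((H.and (eventually_ge_atTop (2 * l + 1))).and
    (t1.eventually_gt_atTop M)).exists
  have hn0 : 0 < n := by omega
  have hn0' : (0 : ℝ) < n := by exact_mod_cast hn0
  have hV : Nonempty (VV n l) := nonempty_VV (by omega)
  set c : ℝ := 1 / 2 * (n : ℝ) ^ (-((2 : ℕ) : ℝ) / 4) with hcdef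
  set s : ℝ := Real.sqrt (Real.sqrt (n : ℝ)) with hsdef
  have hs : 0 < s := Real.sqrt_pos.2 (Real.sqrt_pos.2 hn0')
  have hs2 : s ^ 2 = Real.sqrt n := Real.sq_sqrt (Real.sqrt_nonneg _)
  have hc : c ^ 2 * (4 * n) = 1 := by
    rw [hcdef, mul_pow, ← Real.rpow_natCast ((n : ℝ) ^ (-((2 : ℕ) : ℝ) / 4)) 2,
      ← Real.rpow_mul hn0'.le]
    have : (-((2 : ℕ) : ℝ) / 4 * ((2 : ℕ) : ℝ)) = -1 := by norm_num
    rw [this, Real.rpow_neg_one]
    field_simp
    norm_num
  have h1 := main_bound hV hn0 hc hs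
  have h2 := lower (n := n) hl hV
  have h3 : 0 < kap * Real.sqrt ((n : ℝ) - l) := by
    apply mul_pos hk
    apply Real.sqrt_pos.2
    have : (2 : ℝ) * l + 1 ≤ n := by exact_mod_cast hn2
    have : (0 : ℝ) ≤ l := Nat.cast_nonneg _
    linarith
  set F0 := ∫ z, ff n l z ∂(GG (Finset (Fin n))) with hF0
  have hF : 0 < F0 := h3.trans_le h2
  rw [le_div_iff₀ hF] at hn1
  have h4 : s ^ 2 / 2 ≤ Real.sqrt ((n : ℝ) - l) := by
    apply Real.le_sqrt_of_sq_le
    have e : (s ^ 2 / 2) ^ 2 = n / 4 := by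
      rw [div_pow, hs2, Real.sq_sqrt hn0'.le]
      norm_num
    rw [e]
    have : (2 : ℝ) * l + 1 ≤ n := by exact_mod_cast hn2
    have : (0 : ℝ) ≤ l := Nat.cast_nonneg _
    linarith
  have h5 : 4 * (l : ℝ) ^ 2 * (1 + C8) * Real.sqrt n / (2 * s) + s / 2 * CE =
      (2 * (l : ℝ) ^ 2 * (1 + C8) + CE / 2) * s := by
    rw [← hs2]
    field_simp
    ring
  rw [h5] at h1
  have h6 : ε * (kap * (s ^ 2 / 2)) ≤ (2 * (l : ℝ) ^ 2 * (1 + C8) + CE / 2) * s := by
    calc ε * (kap * (s ^ 2 / 2)) ≤ ε * (kap * Real.sqrt ((n : ℝ) - l)) := by gcongr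
      _ ≤ ε * F0 := by gcongr
      _ ≤ _ := by linarith
  have h7 : s * (ε * kap) ≤ (2 * (l : ℝ) ^ 2 * (1 + C8) + CE / 2) * 2 := by
    have : s * (s * (ε * kap)) ≤ s * ((2 * (l : ℝ) ^ 2 * (1 + C8) + CE / 2) * 2) := by
      nlinarith
    exact le_of_mul_le_mul_left this hs
  have h8 : s ≤ M := by
    rw [hM, le_div_iff₀ (by positivity)]
    exact h7
  linarith

end Pool.Agent.R967.KM
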