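import Pool.Agent.R967.KM.Shift

/-! The lower bound for the mean of the top eigenvalue, and the limit in the truncation. -/

namespace Pool.Agent.R967.KM

open Finset MeasureTheory ProbabilityTheory Matrix

variable {n l : ℕ}

lemma qf_le_mul (Z : Finset (Fin n) → ℝ) (v : VV n l → ℝ) :
    qf Z v ≤ ff n l Z * dotProduct v v := by
  have h0 : 0 ≤ dotProduct v v := Finset.sum_nonneg fun _ _ => mul_self_nonneg _
  rcases h0.eq_or_lt with h | h
  · have hv : v = 0 := dotProduct_self_eq_zero.1 h.symm
    rw [hv]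
    simp [qf]
  · set r := Real.sqrt (dotProduct v v) with hr
    have hr0 : 0 < r := Real.sqrt_pos.2 h
    have hr2 : r ^ 2 = dotProduct v v := Real.sq_sqrt h.le
    have h1 : dotProduct (r⁻¹ • v) (r⁻¹ • v) = 1 := by
      rw [smul_dotProduct, dotProduct_smul, smul_eq_mul, smul_eq_mul, ← hr2]
      field_simp
    have h2 := le_ff Z h1
    have h3 : qf Z (r⁻¹ • v) = r⁻¹ ^ 2 * qf Z v := by
      unfold qf
      rw [smul_dotProduct, mulVec_smul, dotProduct_smul, smul_eq_mul, smul_eq_mul]
      ring
    rw [h3] at h2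
    rw [← hr2]
    have h4 : qf Z v = r ^ 2 * (r⁻¹ ^ 2 * qf Z v) := by field_simp
    rw [h4, mul_comm (ff n l Z)]
    exact mul_le_mul_of_nonneg_left h2 (sq_nonneg _)

lemma AA_symm (Z : Finset (Fin n) → ℝ) (I J : VV n l) : AA n l Z I J = AA n l Z J I := by
  simp only [AA, Matrix.of_apply, symmDiff_comm]

lemma AA_self (Z : Finset (Fin n) → ℝ) (I : VV n l) : AA n l Z I I = 0 := by
  simp [AA]

lemma AA_neg (Z : Finset (Fin n) → ℝ) : AA n l (fun S => -Z S) = -AA n l Z := by
  ext I J
  simp only [AA, Matrix.of_apply, Matrix.neg_apply]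
  split_ifs <;> simp

/-- expansion of the quadratic form at a test vector -/
lemma qf_test (Z : Finset (Fin n) → ℝ) (I : VV n l) (α : ℝ) (b : ℝ) :
    qf Z (Pi.single I α + b • AA n l Z I) =
      2 * α * b * dotProduct (AA n l Z I) (AA n l Z I) + b ^ 2 * qf Z (AA n l Z I) := by
  have h1 : ∀ w : VV n l → ℝ, dotProduct w (AA n l Z *ᵥ Pi.single I α) =
      α * dotProduct w (AA n l Z I) := by
    intro w
    unfold dotProduct mulVec
    rw [Finset.mul_sum]
    refine Finset.sum_congr rfl fun J _ => ?_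
    rw [dotProduct_single, AA_symm Z J I]
    ring
  have h2 : ∀ w : VV n l → ℝ, dotProduct (Pi.single I α) (AA n l Z *ᵥ w) =
      α * dotProduct w (AA n l Z I) := by
    intro w
    rw [single_dotProduct]
    unfold mulVec
    rw [dotProduct_comm]
  unfold qf
  rw [mulVec_add, dotProduct_add, add_dotProduct, add_dotProduct, h1, h1, h2, mulVec_smul,
    smul_dotProduct, single_dotProduct, AA_self]
  simp only [smul_dotProduct, dotProduct_smul, smul_eq_mul, mul_zero]
  ring

lemma norm_test (Z : Finset (Fin n) → ℝ) (I : VV n l) (α : ℝ) (b : ℝ) :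
    dotProduct (Pi.single I α + b • AA n l Z I) (Pi.single I α + b • AA n l Z I) =
      α ^ 2 + b ^ 2 * dotProduct (AA n l Z I) (AA n l Z I) := by
  rw [dotProduct_add, add_dotProduct, add_dotProduct, single_dotProduct, single_dotProduct,
    dotProduct_single]
  simp only [smul_dotProduct, dotProduct_smul, smul_eq_mul, Pi.smul_apply, AA_self, mul_zero,
    Pi.single_eq_same]
  ring

lemma two_norm (Z : Finset (Fin n) → ℝ) (I : VV n l) :
    2 * Real.sqrt (dotProduct (AA n l Z I) (AA n l Z I)) ≤
      ff n l Z + ff n l (fun S => -Z S) := by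
  set N := dotProduct (AA n l Z I) (AA n l Z I) with hN
  have hN0 : 0 ≤ N := Finset.sum_nonneg fun _ _ => mul_self_nonneg _
  set r := Real.sqrt N with hr
  have hr0 : 0 ≤ r := Real.sqrt_nonneg _
  have hr2 : r ^ 2 = N := Real.sq_sqrt hN0
  have h4 : ∀ v : VV n l → ℝ, qf (fun S => -Z S) v = -qf Z v := by
    intro v
    unfold qf
    rw [AA_neg, neg_mulVec, dotProduct_neg]
  rcases hr0.eq_or_lt with h | h
  · rw [← h, mul_zero]
    have h1 := qf_le_mul Z (Pi.single I (1 : ℝ))
    have h2 := qf_le_mul (fun S => -Z S) (Pi.single I (1 : ℝ))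
    rw [h4] at h2
    have h3 : dotProduct (Pi.single I (1 : ℝ)) (Pi.single I (1 : ℝ) : VV n l → ℝ) = 1 := by simp
    rw [h3, mul_one] at h1 h2
    linarith
  · have h1 := qf_le_mul Z (Pi.single I r + (1 : ℝ) • AA n l Z I)
    have h2 := qf_le_mul (fun S => -Z S) (Pi.single I r + (-1 : ℝ) • AA n l Z I)
    rw [h4] at h2
    rw [norm_test, qf_test, ← hN] at h1 h2
    have h3 : 2 * r * (2 * r ^ 2) ≤ (ff n l Z + ff n l (fun S => -Z S)) * (2 * r ^ 2) := by
      rw [← hr2] at h1 h2
      nlinarith
    exact le_of_mul_le_mul_right h3 (by positivity)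

/-- neighbours -/
def NN (I : VV n l) : Finset (VV n l) := Finset.univ.filter fun J => (symmDiff I.1 J.1).card = 2

lemma card_NN (I : VV n l) (hl : 0 < l) : n - l ≤ (NN I).card := by
  obtain ⟨i0, hi0⟩ : I.1.Nonempty := by
    rw [← Finset.card_pos, I.2]
    exact hl
  have h1 : ((Finset.univ : Finset (Fin n)) \ I.1).card = n - l := by
    rw [Finset.card_univ_sdiff, Fintype.card_fin, I.2]
  rw [← h1]
  have hcard : ∀ j ∈ (Finset.univ : Finset (Fin n)) \ I.1, (insert j (I.1.erase i0)).card = l := by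
    intro j hj
    have hj' : j ∉ I.1 := (Finset.mem_sdiff.1 hj).2
    rw [Finset.card_insert_of_notMem (fun h => hj' (Finset.mem_of_mem_erase h)),
      Finset.card_erase_of_mem hi0, I.2]
    omega
  refine Finset.card_le_card_of_injOn
    (fun j => if h : (insert j (I.1.erase i0)).card = l then ⟨insert j (I.1.erase i0), h⟩ else I)
    ?_ ?_
  · intro j hj
    have hj' : j ∉ I.1 := (Finset.mem_sdiff.1 hj).2
    simp only [hcard j hj, dif_pos, NN, coe_filter, mem_univ, true_and, Set.mem_ofPred_eq]
    have hij : i0 ≠ j := fun e => hj' (e ▸ hi0)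
    have : symmDiff I.1 (insert j (I.1.erase i0)) = {i0, j} := by
      ext k
      simp only [Finset.mem_symmDiff, Finset.mem_insert, Finset.mem_erase, Finset.mem_singleton]
      constructor
      · rintro (⟨h, h'⟩ | ⟨h, h'⟩)
        · by_contra hc
          push Not at hc
          exact h' (Or.inr ⟨hc.1, h⟩)
        · rcases h with h | h
          · exact Or.inr h
          · exact absurd h.2 h'
      · rintro (rfl | rfl)
        · refine Or.inl ⟨hi0, ?_⟩
          rintro (h | h)
          · exact hij h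
          · exact h.1 rfl
        · exact Or.inr ⟨Or.inl rfl, hj'⟩
    rw [this, Finset.card_pair hij]
  · intro j hj k hk hjk
    have hj' : j ∉ I.1 := (Finset.mem_sdiff.1 hj).2
    simp only [hcard j hj, hcard k hk, dif_pos, Subtype.mk.injEq] at hjk
    have h2 : j ∈ insert k (I.1.erase i0) := by
      rw [← hjk]
      exact Finset.mem_insert_self _ _
    rcases Finset.mem_insert.1 h2 with h | h
    · exact h
    · exact absurd (Finset.mem_of_mem_erase h) hj'

lemma sum_le_norm (Z : Finset (Fin n) → ℝ) (I : VV n l) :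
    ∑ J ∈ NN I, |Z (symmDiff I.1 J.1)| ≤
      Real.sqrt (NN I).card * Real.sqrt (dotProduct (AA n l Z I) (AA n l Z I)) := by
  rw [← Real.sqrt_mul (Nat.cast_nonneg _)]
  apply Real.le_sqrt_of_sq_le
  have h1 := sq_sum_le_card_mul_sum_sq (s := NN I) (f := fun J => |Z (symmDiff I.1 J.1)|)
  refine h1.trans (mul_le_mul_of_nonneg_left ?_ (Nat.cast_nonneg _))
  have h2 : dotProduct (AA n l Z I) (AA n l Z I) =
      ∑ J ∈ NN I, |Z (symmDiff I.1 J.1)| ^ 2 := by
    unfold dotProduct NN
    rw [Finset.sum_filter]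
    refine Finset.sum_congr rfl fun J _ => ?_
    simp only [AA, Matrix.of_apply]
    split_ifs
    · rw [sq_abs, sq]
    · simp
  rw [h2]

/-- first absolute moment -/
noncomputable def kap : ℝ := ∫ x : ℝ, |x| ∂(gaussianReal 0 1)

lemma int_abs1 : Integrable (fun x : ℝ => |x|) (gaussianReal 0 1) := by
  have h : Integrable (id : ℝ → ℝ) (gaussianReal 0 1) := by
    have := memLp_id_gaussianReal (μ := 0) (v := 1) (1 : NNReal)
    exact memLp_one_iff_integrable.1 (by exact_mod_cast this)
  exact h.abs

lemma kap_pos : 0 < kap := by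
  unfold kap
  rw [integral_pos_iff_support_of_nonneg (fun x => abs_nonneg x) int_abs1]
  have h1 : Function.support (fun x : ℝ => |x|) = {0}ᶜ := by
    ext x
    simp
  rw [h1]
  have := nullSingletonClass_gaussianReal (μ := 0) (v := 1) one_ne_zero
  rw [measure_compl (measurableSet_singleton 0) (measure_ne_top _ _), measure_singleton]
  simp

lemma int_abs (S : Finset (Fin n)) : Integrable (fun z : Finset (Fin n) → ℝ => |z S|)
    (GG (Finset (Fin n))) ∧ ∫ z, |z S| ∂(GG (Finset (Fin n))) = kap := by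
  have hmp := measurePreserving_eval (fun _ : Finset (Fin n) => gaussianReal 0 1) S
  exact ⟨hmp.integrable_comp_of_integrable int_abs1,
    Pool.Agent.H4R2.AE.Conc.int_mp hmp (g := fun x : ℝ => |x|) (by fun_prop)⟩

lemma ff_integrable (h : Nonempty (VV n l)) :
    Integrable (ff n l) (GG (Finset (Fin n))) := by
  have h1 : Integrable (fun z : Finset (Fin n) → ℝ => 2 * (l : ℝ) * ∑ S ∈ T2 n, |z S|)
      (GG (Finset (Fin n))) :=
    (integrable_finsetSum _ fun S _ => (int_abs S).1).const_mul _
  refine h1.mono' (continuous_ff h).aestronglyMeasurable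
    (Filter.Eventually.of_forall fun z => ?_)
  exact ff_abs_le h z

lemma ff_shift_integrable (h : Nonempty (VV n l)) (a : Finset (Fin n) → ℝ) :
    Integrable (fun z => ff n l (z + a)) (GG (Finset (Fin n))) := by
  have h1 : Integrable (fun z : Finset (Fin n) → ℝ => 2 * (l : ℝ) * ∑ S ∈ T2 n, (|z S| + |a S|))
      (GG (Finset (Fin n))) :=
    (integrable_finsetSum _ fun S _ => (int_abs S).1.add (integrable_const _)).const_mul _
  refine h1.mono' ((continuous_ff h).comp (continuous_id.add continuous_const)).aestronglyMeasurable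
    (Filter.Eventually.of_forall fun z => ?_)
  refine (ff_abs_le h (z + a)).trans ?_
  gcongr with S hS
  exact abs_add_le _ _

/-- the lower bound -/
theorem lower (hl : 0 < l) (h : Nonempty (VV n l)) :
    kap * Real.sqrt ((n : ℝ) - l) ≤ ∫ z, ff n l z ∂(GG (Finset (Fin n))) := by
  obtain ⟨I⟩ := id h
  have hN := card_NN I hl
  have hneg : ∫ z, ff n l (fun S => -z S) ∂(GG (Finset (Fin n))) =
      ∫ z, ff n l z ∂(GG (Finset (Fin n))) := by
    have hmp := mp_sign (ι := Finset (Fin n)) (fun _ => -1) (fun _ => by norm_num)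
    have := Pool.Agent.H4R2.AE.Conc.int_mp hmp (g := ff n l) (continuous_ff h).measurable
    simpa using this
  have hnegi : Integrable (fun z => ff n l (fun S => -z S)) (GG (Finset (Fin n))) := by
    have hmp := mp_sign (ι := Finset (Fin n)) (fun _ => -1) (fun _ => by norm_num)
    have := hmp.integrable_comp_of_integrable (ff_integrable (n := n) (l := l) h)
    simpa [Function.comp_def] using this
  have h1 : ∀ z : Finset (Fin n) → ℝ, 2 * ∑ J ∈ NN I, |z (symmDiff I.1 J.1)| ≤
      Real.sqrt (NN I).card * (ff n l z + ff n l (fun S => -z S)) := by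
    intro z
    have a1 := sum_le_norm z I
    have a2 := mul_le_mul_of_nonneg_left (two_norm z I) (Real.sqrt_nonneg ((NN I).card : ℝ))
    linarith
  have h2 : 2 * ((NN I).card * kap) ≤
      Real.sqrt (NN I).card * (2 * ∫ z, ff n l z ∂(GG (Finset (Fin n)))) := by
    have h3 : ∫ z, 2 * ∑ J ∈ NN I, |z (symmDiff I.1 J.1)| ∂(GG (Finset (Fin n))) =
        2 * ((NN I).card * kap) := by
      rw [integral_const_mul, integral_finsetSum _ fun J _ => (int_abs _).1]
      simp [(int_abs _).2]
    have h4 : ∫ z, Real.sqrt (NN I).card * (ff n l z + ff n l (fun S => -z S))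
        ∂(GG (Finset (Fin n))) =
        Real.sqrt (NN I).card * (2 * ∫ z, ff n l z ∂(GG (Finset (Fin n)))) := by
      rw [integral_const_mul, integral_add (ff_integrable h) hnegi, hneg]
      ring
    rw [← h3, ← h4]
    exact integral_mono ((integrable_finsetSum _ fun J _ => (int_abs _).1).const_mul _)
      (((ff_integrable h).add hnegi).const_mul _) h1
  obtain ⟨N, hNdef⟩ : ∃ N : ℝ, N = ((NN I).card : ℝ) := ⟨_, rfl⟩
  rw [← hNdef] at h2
  have hNn : (n : ℝ) - l ≤ N := by
    have : (n : ℝ) ≤ l + (NN I).card := by exact_mod_cast (by omega : n ≤ l + (NN I).card)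
    rw [hNdef]
    linarith
  have hN0 : 0 ≤ N := by
    rw [hNdef]
    exact Nat.cast_nonneg _
  rcases hN0.eq_or_lt with h0 | h0
  · rw [Real.sqrt_eq_zero_of_nonpos (by linarith), mul_zero]
    have h5 : 0 ≤ ∫ z, (ff n l z + ff n l (fun S => -z S)) ∂(GG (Finset (Fin n))) :=
      integral_nonneg fun z => le_trans (by positivity) (two_norm z I)
    rw [integral_add (ff_integrable h) hnegi, hneg] at h5
    linarith
  · have hs : 0 < Real.sqrt N := Real.sqrt_pos.2 h0
    have hs2 : Real.sqrt N * Real.sqrt N = N := Real.mul_self_sqrt hN0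
    have h6 : Real.sqrt N * (kap * Real.sqrt N) ≤
        Real.sqrt N * ∫ z, ff n l z ∂(GG (Finset (Fin n))) := by
      have : Real.sqrt N * (kap * Real.sqrt N) = N * kap := by
        rw [mul_comm kap, ← mul_assoc, hs2]
      rw [this]
      linarith
    have h7 := le_of_mul_le_mul_left h6 hs
    refine le_trans ?_ h7
    exact mul_le_mul_of_nonneg_left (Real.sqrt_le_sqrt hNn) kap_pos.le

end Pool.Agent.R967.KM
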