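import Pool.Agent.R967.KM.Var
import Pool.Agent.H988R2.Gauss

/-! Gaussian shifts. -/

namespace Pool.Agent.R967.KM

open Finset MeasureTheory ProbabilityTheory

section CM

variable {ι : Type} [Fintype ι]

/-- the standard Gaussian measure -/
noncomputable abbrev GG (ι : Type) [Fintype ι] : Measure (ι → ℝ) :=
  Measure.pi fun _ : ι => gaussianReal 0 1

lemma int_std (F : EuclideanSpace ℝ ι → ℝ) :
    ∫ x, F x ∂(stdGaussian (EuclideanSpace ℝ ι)) = ∫ z, F (WithLp.toLp 2 z) ∂(GG ι) := by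
  rw [← map_pi_eq_stdGaussian]
  exact (MeasurableEquiv.toLp 2 (ι → ℝ)).measurableEmbedding.integral_map F

lemma cm (F : (ι → ℝ) → ℝ) (h : ι → ℝ) :
    ∫ z, F (z + h) ∂(GG ι) =
      ∫ z, F z * Real.exp (∑ i, z i * h i - (∑ i, h i ^ 2) / 2) ∂(GG ι) := by
  have h1 := Pool.Agent.H988R2.integral_stdGaussian_add ι
    (fun x => F (WithLp.ofLp x)) (WithLp.toLp 2 h)
  rw [int_std, int_std] at h1
  simp only [WithLp.ofLp_add] at h1
  rw [h1, ← integral_const_mul]
  apply integral_congr_ae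
  refine Filter.Eventually.of_forall fun z => ?_
  simp only
  rw [← mul_assoc, ← Real.exp_add, mul_comm]
  congr 2
  rw [EuclideanSpace.norm_sq_eq, PiLp.inner_apply]
  have e1 : ∀ i, inner ℝ ((WithLp.toLp 2 z : EuclideanSpace ℝ ι) i)
      ((WithLp.toLp 2 h : EuclideanSpace ℝ ι) i) = z i * h i := by
    intro i
    simp [mul_comm]
  simp only [e1, Real.norm_eq_abs, sq_abs]
  ring

lemma exp_int (a : ι → ℝ) :
    ∫ z, Real.exp (∑ i, z i * a i) ∂(GG ι) = Real.exp ((∑ i, a i ^ 2) / 2) := by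
  have h1 := cm (fun _ => 1) a
  simp only [one_mul, integral_const, probReal_univ, smul_eq_mul] at h1
  have h2 : ∀ z : ι → ℝ, Real.exp (∑ i, z i * a i - (∑ i, a i ^ 2) / 2) =
      Real.exp (-((∑ i, a i ^ 2) / 2)) * Real.exp (∑ i, z i * a i) := by
    intro z
    rw [← Real.exp_add]
    congr 1
    ring
  simp only [h2] at h1
  rw [integral_const_mul] at h1
  have h3 : Real.exp ((∑ i, a i ^ 2) / 2) * (Real.exp (-((∑ i, a i ^ 2) / 2)) *
      ∫ z, Real.exp (∑ i, z i * a i) ∂(GG ι)) = Real.exp ((∑ i, a i ^ 2) / 2) := by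
    rw [← h1, mul_one]
  rw [← mul_assoc, ← Real.exp_add, add_neg_cancel, Real.exp_zero, one_mul] at h3
  exact h3

lemma exp_integrable (a : ι → ℝ) : Integrable (fun z => Real.exp (∑ i, z i * a i)) (GG ι) := by
  apply Integrable.of_integral_ne_zero
  rw [exp_int]
  exact (Real.exp_pos _).ne'

lemma mp_sign (σ : ι → ℝ) (hσ : ∀ i, σ i ^ 2 = 1) :
    MeasurePreserving (fun z : ι → ℝ => fun i => σ i * z i) (GG ι) (GG ι) := by
  refine measurePreserving_pi (fun _ : ι => gaussianReal 0 1) (fun _ : ι => gaussianReal 0 1)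
    (f := fun i z => σ i * z) fun i => ⟨by fun_prop, ?_⟩
  rw [gaussianReal_map_const_mul, mul_zero]
  congr 1
  ext
  simp [hσ i]

end CM

/-- sums of products over pairs -/
lemma sum_pairs {α : Type*} [DecidableEq α] (x : α → ℝ) (s : Finset α) :
    2 * ∑ S ∈ Finset.powersetCard 2 s, ∏ i ∈ S, x i = (∑ i ∈ s, x i) ^ 2 - ∑ i ∈ s, x i ^ 2 := by
  induction s using Finset.induction_on with
  | empty =>
    rw [Finset.powersetCard_eq_empty.2 (by simp)]
    simp
  | insert a s ha ih =>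
    rw [Finset.powersetCard_succ_insert ha, Finset.sum_union, Finset.sum_insert ha,
      Finset.sum_insert ha, mul_add, ih, Finset.sum_image]
    · rw [Finset.powersetCard_one, Finset.sum_map]
      have : ∀ i ∈ s, ∏ j ∈ insert a ((⟨singleton, Finset.singleton_injective⟩ : α ↪ Finset α) i),
          x j = x a * x i := by
        intro i hi
        have hne : a ≠ i := fun e => ha (e ▸ hi)
        simp only [Function.Embedding.coeFn_mk]
        rw [Finset.prod_insert (by simpa using hne), Finset.prod_singleton]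
      rw [Finset.sum_congr rfl this, ← Finset.mul_sum]
      ring
    · intro S hS T hT hST
      rw [Finset.mem_coe, Finset.mem_powersetCard] at hS hT
      have h1 : a ∉ S := fun h => ha (hS.1 h)
      have h2 : a ∉ T := fun h => ha (hT.1 h)
      rw [← Finset.erase_insert h1, hST, Finset.erase_insert h2]
    · rw [Finset.disjoint_left]
      intro S hS hS'
      rw [Finset.mem_powersetCard] at hS
      rw [Finset.mem_image] at hS'
      obtain ⟨T, _, rfl⟩ := hS'
      exact ha (hS.1 (Finset.mem_insert_self _ _))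

/-- signs -/
def ee {n : ℕ} (x : Fin n → ℤˣ) : Fin n → ℝ := fun i => ((x i : ℤ) : ℝ)

lemma ee_sq {n : ℕ} (x : Fin n → ℤˣ) (i : Fin n) : ee x i ^ 2 = 1 := by
  unfold ee
  rcases Int.units_eq_one_or (x i) with h | h <;> rw [h] <;> simp

lemma ee_mul {n : ℕ} (x y : Fin n → ℤˣ) (i : Fin n) : ee (x * y) i = ee x i * ee y i := by
  unfold ee
  simp

lemma sgn_ee_mul {n : ℕ} (x y : Fin n → ℤˣ) (S : Finset (Fin n)) :
    sgn (ee (x * y)) S = sgn (ee x) S * sgn (ee y) S := by
  unfold sgn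
  rw [← Finset.prod_mul_distrib]
  exact Finset.prod_congr rfl fun i _ => ee_mul x y i

variable {n l : ℕ}

/-- the shift -/
noncomputable def hh (c : ℝ) (x : Fin n → ℤˣ) (S : Finset (Fin n)) : ℝ :=
  if S ∈ T2 n then c * sgn (ee x) S else 0

/-- squared norm of the shift -/
noncomputable def DD (c : ℝ) (n : ℕ) : ℝ := c ^ 2 * (T2 n).card

lemma sum_hh_mul (c : ℝ) (x y : Fin n → ℤˣ) :
    ∑ S, hh c x S * hh c y S = c ^ 2 * ∑ S ∈ T2 n, sgn (ee (x * y)) S := by
  rw [Finset.mul_sum]
  have h1 : ∀ S : Finset (Fin n), hh c x S * hh c y S =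
      if S ∈ T2 n then c ^ 2 * sgn (ee (x * y)) S else 0 := by
    intro S
    unfold hh
    split_ifs
    · rw [sgn_ee_mul]
      ring
    · ring
  simp only [h1]
  rw [← Finset.sum_filter, Finset.filter_mem_eq_inter, Finset.univ_inter]

lemma sum_hh_sq (c : ℝ) (x : Fin n → ℤˣ) : ∑ S, hh c x S ^ 2 = DD c n := by
  have h1 : ∑ S, hh c x S ^ 2 = ∑ S, hh c x S * hh c x S :=
    Finset.sum_congr rfl fun S _ => sq _
  rw [h1, sum_hh_mul]
  have h2 : ∀ S ∈ T2 n, sgn (ee (x * x)) S = 1 := by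
    intro S _
    rw [sgn_ee_mul, ← sq]
    exact sgn_sq (ee_sq x) S
  rw [Finset.sum_congr rfl h2]
  simp [DD]

/-- the averaged likelihood ratio -/
noncomputable def LL (c : ℝ) (n : ℕ) (z : Finset (Fin n) → ℝ) : ℝ :=
  ((2 : ℝ) ^ n)⁻¹ * ∑ x : Fin n → ℤˣ, Real.exp (∑ S, z S * hh c x S - DD c n / 2)

lemma exp_split (c : ℝ) (x : Fin n → ℤˣ) (z : Finset (Fin n) → ℝ) :
    Real.exp (∑ S, z S * hh c x S - DD c n / 2) =
      Real.exp (-(DD c n / 2)) * Real.exp (∑ S, z S * hh c x S) := by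
  rw [← Real.exp_add]
  congr 1
  ring

lemma LL_term_integrable (c : ℝ) (x : Fin n → ℤˣ) :
    Integrable (fun z : Finset (Fin n) → ℝ => Real.exp (∑ S, z S * hh c x S - DD c n / 2))
      (GG (Finset (Fin n))) := by
  simp only [exp_split]
  exact (exp_integrable _).const_mul _

lemma card_signs : (Fintype.card (Fin n → ℤˣ) : ℝ) = 2 ^ n := by
  rw [Fintype.card_fun, Fintype.card_fin, Fintype.card_units_int]
  push_cast
  rfl

lemma avg_const (a : ℝ) : ((2 : ℝ) ^ n)⁻¹ * ∑ _x : Fin n → ℤˣ, a = a := by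
  rw [Finset.sum_const, Finset.card_univ, nsmul_eq_mul, card_signs, ← mul_assoc,
    inv_mul_cancel₀ (by positivity), one_mul]

lemma LL_integrable (c : ℝ) : Integrable (LL c n) (GG (Finset (Fin n))) := by
  unfold LL
  exact (integrable_finsetSum _ fun x _ => LL_term_integrable c x).const_mul _

lemma LL_int (c : ℝ) : ∫ z, LL c n z ∂(GG (Finset (Fin n))) = 1 := by
  unfold LL
  rw [integral_const_mul, integral_finsetSum _ fun x _ => LL_term_integrable c x]
  have h1 : ∀ x : Fin n → ℤˣ, ∫ z : Finset (Fin n) → ℝ,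
      Real.exp (∑ S, z S * hh c x S - DD c n / 2) ∂(GG (Finset (Fin n))) = 1 := by
    intro x
    simp only [exp_split]
    rw [integral_const_mul, exp_int, sum_hh_sq, ← Real.exp_add, neg_add_cancel, Real.exp_zero]
  simp only [h1]
  exact avg_const 1

lemma shift_eq (G : (Finset (Fin n) → ℝ) → ℝ) (hGm : Measurable G)
    (hs : ∀ (x : Fin n → ℤˣ) (z : Finset (Fin n) → ℝ), G (fun S => sgn (ee x) S * z S) = G z)
    (c : ℝ) (x : Fin n → ℤˣ) :
    ∫ z, G (z + hh c x) ∂(GG (Finset (Fin n))) = ∫ z, G (z + hh c 1) ∂(GG (Finset (Fin n))) := by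
  have hmp := mp_sign (ι := Finset (Fin n)) (fun S => sgn (ee x) S) (fun S => sgn_sq (ee_sq x) S)
  have h1 := Pool.Agent.H4R2.AE.Conc.int_mp hmp (g := fun z => G (z + hh c 1))
    (hGm.comp (measurable_id.add_const _))
  rw [← h1]
  apply integral_congr_ae
  refine Filter.Eventually.of_forall fun z => ?_
  simp only
  rw [← hs x (z + hh c x)]
  congr 1
  funext S
  simp only [Pi.add_apply]
  have h2 := sgn_sq (ee_sq x) S
  have h3 : sgn (ee (1 : Fin n → ℤˣ)) S = 1 := by
    unfold sgn ee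
    simp
  unfold hh
  split_ifs
  · rw [h3]
    linear_combination c * h2
  · ring

/-- the average over shifts -/
lemma shift_avg (G : (Finset (Fin n) → ℝ) → ℝ) (hGm : Measurable G) {B : ℝ}
    (hB : ∀ z, |G z| ≤ B)
    (hs : ∀ (x : Fin n → ℤˣ) (z : Finset (Fin n) → ℝ), G (fun S => sgn (ee x) S * z S) = G z)
    (c : ℝ) :
    ∫ z, G (z + hh c 1) ∂(GG (Finset (Fin n))) =
      ∫ z, G z * LL c n z ∂(GG (Finset (Fin n))) := by
  have h1 : ∀ x : Fin n → ℤˣ, Integrable (fun z : Finset (Fin n) → ℝ =>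
      G z * Real.exp (∑ S, z S * hh c x S - DD c n / 2)) (GG (Finset (Fin n))) := by
    intro x
    exact (LL_term_integrable c x).bdd_mul hGm.aestronglyMeasurable
      (Filter.Eventually.of_forall fun z => by simpa using hB z)
  have h2 : ∀ z : Finset (Fin n) → ℝ, G z * LL c n z =
      ((2 : ℝ) ^ n)⁻¹ * ∑ x : Fin n → ℤˣ, G z * Real.exp (∑ S, z S * hh c x S - DD c n / 2) := by
    intro z
    unfold LL
    rw [← Finset.mul_sum]
    ring
  simp only [h2]
  rw [integral_const_mul, integral_finsetSum _ fun x _ => h1 x]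
  have h3 : ∀ x : Fin n → ℤˣ, ∫ z : Finset (Fin n) → ℝ,
      G z * Real.exp (∑ S, z S * hh c x S - DD c n / 2) ∂(GG (Finset (Fin n))) =
      ∫ z, G (z + hh c 1) ∂(GG (Finset (Fin n))) := by
    intro x
    rw [← shift_eq G hGm hs c x, cm, sum_hh_sq]
  simp only [h3]
  exact (avg_const _).symm

/-- the constant -/
noncomputable def CE : ℝ := ∫ g : ℝ, Real.exp (g ^ 2 / 8) ∂(gaussianReal 0 1)

lemma CE_integrable : Integrable (fun g : ℝ => Real.exp (g ^ 2 / 8)) (gaussianReal 0 1) := by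
  rw [gaussianReal_of_var_ne_zero 0 one_ne_zero,
    integrable_withDensity_iff (measurable_gaussianPDF 0 1)
      (Filter.Eventually.of_forall fun x => gaussianPDF_lt_top)]
  have h1 := (integrable_exp_neg_mul_sq (b := 3 / 8) (by norm_num)).const_mul
    ((Real.sqrt (2 * Real.pi))⁻¹)
  refine h1.congr (Filter.Eventually.of_forall fun x => ?_)
  simp only
  rw [toReal_gaussianPDF, gaussianPDFReal_def]
  simp only [NNReal.coe_one, mul_one, sub_zero]
  rw [mul_comm (Real.exp (x ^ 2 / 8)), mul_assoc, ← Real.exp_add]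
  congr 2
  ring

lemma CE_nonneg : 0 ≤ CE := integral_nonneg fun _ => (Real.exp_pos _).le

lemma exp_gauss (a : ℝ) : ∫ g : ℝ, Real.exp (g * a) ∂(gaussianReal 0 1) = Real.exp (a ^ 2 / 2) := by
  have := mgf_gaussianReal (μ := 0) (v := 1) (p := gaussianReal 0 1) (X := id)
    (by rw [Measure.map_id]) a
  unfold mgf at this
  simp only [id] at this
  rw [show (fun g : ℝ => Real.exp (g * a)) = fun g => Real.exp (a * g) by
    funext g; rw [mul_comm]]
  rw [this]
  congr 1
  simp

lemma exp_gauss_integrable (a : ℝ) :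
    Integrable (fun g : ℝ => Real.exp (g * a)) (gaussianReal 0 1) := by
  apply Integrable.of_integral_ne_zero
  rw [exp_gauss]
  exact (Real.exp_pos _).ne'

lemma avg_exp (a : ℝ) :
    ((2 : ℝ) ^ n)⁻¹ * ∑ x : Fin n → ℤˣ, Real.exp (a * ∑ i, ee x i) ≤ Real.exp (n * a ^ 2 / 2) := by
  have h1 : ∑ x : Fin n → ℤˣ, Real.exp (a * ∑ i, ee x i) =
      ∏ _i : Fin n, ∑ u : ℤˣ, Real.exp (a * ((u : ℤ) : ℝ)) := by
    rw [Finset.prod_univ_sum, Fintype.piFinset_univ]
    refine Finset.sum_congr rfl fun x _ => ?_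
    rw [Finset.mul_sum, Real.exp_sum]
    rfl
  have h2 : ∑ u : ℤˣ, Real.exp (a * ((u : ℤ) : ℝ)) = 2 * Real.cosh a := by
    have : (Finset.univ : Finset ℤˣ) = {1, -1} := by decide
    rw [this, Finset.sum_pair (by decide), Real.cosh_eq]
    simp
    ring
  rw [h1, h2, Finset.prod_const, Finset.card_univ, Fintype.card_fin, mul_pow, ← mul_assoc,
    inv_mul_cancel₀ (by positivity), one_mul]
  calc Real.cosh a ^ n ≤ Real.exp (a ^ 2 / 2) ^ n :=
        pow_le_pow_left₀ (Real.cosh_pos a).le (Real.cosh_le_exp_half_sq a) n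
    _ = _ := by
        rw [← Real.exp_nat_mul]
        congr 1
        ring

/-- the second moment of the likelihood ratio -/
lemma LL_sq (c : ℝ) (hn : 0 < n) (hc : c ^ 2 * (4 * n) = 1) :
    Integrable (fun z => LL c n z ^ 2) (GG (Finset (Fin n))) ∧
      ∫ z, LL c n z ^ 2 ∂(GG (Finset (Fin n))) ≤ CE := by
  have hn' : (0 : ℝ) < n := by exact_mod_cast hn
  have h1 : ∀ z : Finset (Fin n) → ℝ, LL c n z ^ 2 = ((2 : ℝ) ^ n)⁻¹ * (((2 : ℝ) ^ n)⁻¹ *
      ∑ x : Fin n → ℤˣ, ∑ y : Fin n → ℤˣ,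
        Real.exp (-DD c n) * Real.exp (∑ S, z S * (hh c x S + hh c y S))) := by
    intro z
    unfold LL
    rw [mul_pow, sq (∑ x : Fin n → ℤˣ, Real.exp (∑ S, z S * hh c x S - DD c n / 2)),
      Finset.sum_mul_sum, sq, mul_assoc]
    congr 2
    refine Finset.sum_congr rfl fun x _ => Finset.sum_congr rfl fun y _ => ?_
    rw [← Real.exp_add, ← Real.exp_add]
    congr 1
    have : ∑ S, z S * (hh c x S + hh c y S) = ∑ S, z S * hh c x S + ∑ S, z S * hh c y S := by
      rw [← Finset.sum_add_distrib]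
      exact Finset.sum_congr rfl fun S _ => by ring
    rw [this]
    ring
  have h2 : ∀ x y : Fin n → ℤˣ, Integrable (fun z : Finset (Fin n) → ℝ =>
      Real.exp (-DD c n) * Real.exp (∑ S, z S * (hh c x S + hh c y S)))
      (GG (Finset (Fin n))) := fun x y => (exp_integrable _).const_mul _
  have h3 : ∀ x y : Fin n → ℤˣ, ∫ z : Finset (Fin n) → ℝ,
      Real.exp (-DD c n) * Real.exp (∑ S, z S * (hh c x S + hh c y S))
      ∂(GG (Finset (Fin n))) = Real.exp (c ^ 2 * ∑ S ∈ T2 n, sgn (ee (x * y)) S) := by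
    intro x y
    rw [integral_const_mul, exp_int (fun S => hh c x S + hh c y S), ← Real.exp_add]
    congr 1
    have : ∑ S, (hh c x S + hh c y S) ^ 2 = ∑ S, hh c x S ^ 2 + ∑ S, hh c y S ^ 2 +
        2 * ∑ S, hh c x S * hh c y S := by
      rw [Finset.mul_sum, ← Finset.sum_add_distrib, ← Finset.sum_add_distrib]
      exact Finset.sum_congr rfl fun S _ => by ring
    rw [this, sum_hh_sq, sum_hh_sq, sum_hh_mul]
    ring
  constructor
  · simp only [h1]
    exact ((integrable_finsetSum _ fun x _ => integrable_finsetSum _ fun y _ =>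
      h2 x y).const_mul _).const_mul _
  simp only [h1]
  rw [integral_const_mul, integral_const_mul, integral_finsetSum _ fun x _ =>
    integrable_finsetSum _ fun y _ => h2 x y]
  have h4 : ∀ x : Fin n → ℤˣ, ∫ z : Finset (Fin n) → ℝ, ∑ y : Fin n → ℤˣ,
      Real.exp (-DD c n) * Real.exp (∑ S, z S * (hh c x S + hh c y S))
      ∂(GG (Finset (Fin n))) = ∑ y : Fin n → ℤˣ, Real.exp (c ^ 2 * ∑ S ∈ T2 n, sgn (ee y) S) := by
    intro x
    rw [integral_finsetSum _ fun y _ => h2 x y]
    simp only [h3]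
    exact Equiv.sum_comp (Equiv.mulLeft x)
      (fun y : Fin n → ℤˣ => Real.exp (c ^ 2 * ∑ S ∈ T2 n, sgn (ee y) S))
  simp only [h4]
  rw [avg_const]
  set a : ℝ := c with ha
  have h5 : ∀ y : Fin n → ℤˣ, Real.exp (c ^ 2 * ∑ S ∈ T2 n, sgn (ee y) S) ≤
      ∫ g : ℝ, Real.exp (g * (c * ∑ i, ee y i)) ∂(gaussianReal 0 1) := by
    intro y
    rw [exp_gauss]
    apply Real.exp_le_exp.2
    have hp := sum_pairs (ee y) (Finset.univ : Finset (Fin n))
    have hT : T2 n = Finset.powersetCard 2 (Finset.univ : Finset (Fin n)) := by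
      ext S
      simp [T2]
    have h6 : ∑ S ∈ T2 n, sgn (ee y) S ≤ (∑ i, ee y i) ^ 2 / 2 := by
      rw [hT]
      unfold sgn
      have : 0 ≤ ∑ i, ee y i ^ 2 := Finset.sum_nonneg fun _ _ => sq_nonneg _
      linarith
    calc c ^ 2 * ∑ S ∈ T2 n, sgn (ee y) S ≤ c ^ 2 * ((∑ i, ee y i) ^ 2 / 2) :=
          mul_le_mul_of_nonneg_left h6 (sq_nonneg _)
      _ = _ := by ring
  calc ((2 : ℝ) ^ n)⁻¹ * ∑ y : Fin n → ℤˣ, Real.exp (c ^ 2 * ∑ S ∈ T2 n, sgn (ee y) S)
      ≤ ((2 : ℝ) ^ n)⁻¹ * ∑ y : Fin n → ℤˣ,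
          ∫ g : ℝ, Real.exp (g * (c * ∑ i, ee y i)) ∂(gaussianReal 0 1) := by
        apply mul_le_mul_of_nonneg_left _ (by positivity)
        exact Finset.sum_le_sum fun y _ => h5 y
    _ = ∫ g : ℝ, ((2 : ℝ) ^ n)⁻¹ * ∑ y : Fin n → ℤˣ,
          Real.exp (g * (c * ∑ i, ee y i)) ∂(gaussianReal 0 1) := by
        rw [integral_const_mul, integral_finsetSum _ fun y _ => exp_gauss_integrable _]
    _ ≤ CE := by
        apply integral_mono
        · exact (integrable_finsetSum _ fun y _ => exp_gauss_integrable _).const_mul _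
        · exact CE_integrable
        · intro g
          simp only
          have h7 := avg_exp (n := n) (g * c)
          have h8 : ∀ y : Fin n → ℤˣ, g * (c * ∑ i, ee y i) = g * c * ∑ i, ee y i :=
            fun y => by ring
          simp only [h8]
          refine h7.trans (Real.exp_le_exp.2 (le_of_eq ?_))
          linear_combination (g ^ 2 / 8) * hc

/-- the shift of the mean of the truncated top eigenvalue -/
theorem shift_bound (h : Nonempty (VV n l)) (hn : 0 < n) {B : ℝ} (hB : 0 ≤ B) {c s : ℝ}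
    (hc : c ^ 2 * (4 * n) = 1) (hs : 0 < s) :
    ∫ z, tr B (ff n l (z + hh c 1)) ∂(GG (Finset (Fin n))) -
      ∫ z, tr B (ff n l z) ∂(GG (Finset (Fin n))) ≤
      4 * (l : ℝ) ^ 2 * (1 + C8) * Real.sqrt n / (2 * s) + s / 2 * CE := by
  set P := GG (Finset (Fin n)) with hP
  set G : (Finset (Fin n) → ℝ) → ℝ := fun z => tr B (ff n l z) with hG
  have hGm : Measurable G := (tr_measurable B).comp (continuous_ff h).measurable
  have hGb : ∀ z, |G z| ≤ B := fun z => tr_abs hB _
  have hGs : ∀ (x : Fin n → ℤˣ) (z : Finset (Fin n) → ℝ),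
      G (fun S => sgn (ee x) S * z S) = G z := by
    intro x z
    simp only [hG]
    rw [ff_sgn (ee_sq x) h]
  have h1 := shift_avg G hGm hGb hGs c
  obtain ⟨i2, h2⟩ := LL_sq c hn hc
  have h3 := var_bound h hn hB
  set m := ∫ z, G z ∂P with hm
  have iG : Integrable G P := Pool.Agent.H4R2.AE.Conc.int_bd hGm hGb
  have iG2 : Integrable (fun z => G z ^ 2) P :=
    Pool.Agent.H4R2.AE.Conc.int_bd (hGm.pow_const 2) (C := B ^ 2) fun z => by
      rw [abs_of_nonneg (sq_nonneg _), ← sq_abs]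
      exact pow_le_pow_left₀ (abs_nonneg _) (hGb z) 2
  have iGL : Integrable (fun z => G z * LL c n z) P :=
    (LL_integrable c).bdd_mul hGm.aestronglyMeasurable
      (Filter.Eventually.of_forall fun z => by simpa using hGb z)
  have h4 : ∫ z, G z * LL c n z ∂P - m = ∫ z, (G z - m) * LL c n z ∂P := by
    have e : ∀ z, (G z - m) * LL c n z = G z * LL c n z - m * LL c n z := fun z => by ring
    simp only [e]
    rw [integral_sub iGL ((LL_integrable c).const_mul m), integral_const_mul, LL_int, mul_one]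
  have h5 : ∫ z, (G z - m) ^ 2 ∂P = ∫ z, G z ^ 2 ∂P - m ^ 2 := by
    have e : ∀ z, (G z - m) ^ 2 = G z ^ 2 - 2 * m * G z + m ^ 2 := fun z => by ring
    simp only [e]
    rw [integral_add (f := fun z => G z ^ 2 - 2 * m * G z) (g := fun _ => m ^ 2)
      (iG2.sub (iG.const_mul _)) (integrable_const _),
      integral_sub iG2 (iG.const_mul _), integral_const_mul, integral_const, ← hm]
    simp
    ring
  have iGm2 : Integrable (fun z => (G z - m) ^ 2) P := by
    have e : ∀ z, (G z - m) ^ 2 = G z ^ 2 - 2 * m * G z + m ^ 2 := fun z => by ring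
    simp only [e]
    exact (iG2.sub (iG.const_mul _)).add (integrable_const _)
  rw [h1, h4]
  calc ∫ z, (G z - m) * LL c n z ∂P
      ≤ ∫ z, ((G z - m) ^ 2 / (2 * s) + s / 2 * LL c n z ^ 2) ∂P := by
        apply integral_mono
        · refine (iGL.sub ((LL_integrable c).const_mul m)).congr ?_
          exact Filter.Eventually.of_forall fun z => by
            simp only [Pi.sub_apply]
            ring
        · exact (iGm2.div_const _).add (i2.const_mul _)
        · intro z
          simp only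
          have h6 : 0 ≤ ((G z - m) - s * LL c n z) ^ 2 / (2 * s) := by positivity
          have h7 : ((G z - m) - s * LL c n z) ^ 2 / (2 * s) =
              (G z - m) ^ 2 / (2 * s) - (G z - m) * LL c n z + s / 2 * LL c n z ^ 2 := by
            field_simp
            ring
          linarith
    _ = (∫ z, (G z - m) ^ 2 ∂P) / (2 * s) + s / 2 * ∫ z, LL c n z ^ 2 ∂P := by
        rw [integral_add (iGm2.div_const _) (i2.const_mul _), integral_div, integral_const_mul]
    _ ≤ _ := by
        rw [h5]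
        gcongr

end Pool.Agent.R967.KM
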