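import Pool.Agent.R967.KM.Basic
import Pool.Agent.H4R2.AE.Conc

/-! The variance of the truncated top eigenvalue is at most `C √n`. -/

namespace Pool.Agent.R967.KM

open Finset MeasureTheory ProbabilityTheory
open Pool.Agent.H4R2.AE.Conc

/-- truncation -/
noncomputable def tr (B t : ℝ) : ℝ := max (-B) (min t B)

lemma tr_abs {B : ℝ} (hB : 0 ≤ B) (t : ℝ) : |tr B t| ≤ B := by
  unfold tr
  rw [abs_le]
  exact ⟨le_max_left _ _, max_le (by linarith) (min_le_right _ _)⟩

lemma tr_pos (B s t : ℝ) : max (tr B s - tr B t) 0 ≤ max (s - t) 0 := by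
  unfold tr
  rcases le_total s B with h1 | h1 <;> rcases le_total t B with h2 | h2 <;>
    simp only [min_eq_left, min_eq_right, h1, h2] <;>
    refine max_le ?_ (le_max_right _ _) <;>
    rcases le_total (-B) s with h3 | h3 <;> rcases le_total (-B) t with h4 | h4 <;>
    rcases le_total (-B) B with h5 | h5 <;>
    simp only [max_eq_left, max_eq_right, h3, h4, h5] <;>
    rcases le_total (s - t) 0 with h6 | h6 <;>
    simp only [max_eq_left, max_eq_right, h6] <;> linarith

lemma tr_abs_le (B : ℝ) (hB : 0 ≤ B) (t : ℝ) : |tr B t| ≤ |t| := by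
  unfold tr
  rcases abs_cases t with ⟨h1, h2⟩ | ⟨h1, h2⟩ <;> rw [h1, abs_le] <;> constructor
  · exact le_max_of_le_right (le_min (by linarith) (by linarith))
  · exact max_le (by linarith) (min_le_left _ _)
  · exact le_max_of_le_right (le_min (by linarith) (by linarith))
  · exact max_le (by linarith) ((min_le_left _ _).trans (by linarith))

lemma tr_eq {B t : ℝ} (h : |t| ≤ B) : tr B t = t := by
  rw [abs_le] at h
  unfold tr
  rw [min_eq_left h.2, max_eq_right h.1]

lemma tr_measurable (B : ℝ) : Measurable (tr B) := by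
  unfold tr
  fun_prop

/-- the eighth moment -/
noncomputable def C8 : ℝ := ∫ p : ℝ × ℝ, (p.1 - p.2) ^ 8 ∂((gaussianReal 0 1).prod (gaussianReal 0 1))

lemma int8 : Integrable (fun p : ℝ × ℝ => (p.1 - p.2) ^ 8)
    ((gaussianReal 0 1).prod (gaussianReal 0 1)) := by
  have h0 : MemLp (id : ℝ → ℝ) ((8 : ℕ) : ENNReal) (gaussianReal 0 1) := by
    have := memLp_id_gaussianReal (μ := 0) (v := 1) (8 : NNReal)
    exact_mod_cast this
  have h1 : MemLp (fun p : ℝ × ℝ => p.1) ((8 : ℕ) : ENNReal)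
      ((gaussianReal 0 1).prod (gaussianReal 0 1)) :=
    h0.comp_measurePreserving measurePreserving_fst
  have h2 : MemLp (fun p : ℝ × ℝ => p.2) ((8 : ℕ) : ENNReal)
      ((gaussianReal 0 1).prod (gaussianReal 0 1)) :=
    h0.comp_measurePreserving measurePreserving_snd
  have h3 := (h1.sub h2).integrable_norm_pow (by norm_num : (8 : ℕ) ≠ 0)
  refine h3.congr (Filter.Eventually.of_forall fun p => ?_)
  simp only [Pi.sub_apply, Real.norm_eq_abs]
  rw [show (8 : ℕ) = 2 * 4 by norm_num, pow_mul, sq_abs, pow_mul]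

lemma C8_nonneg : 0 ≤ C8 := by
  unfold C8
  refine integral_nonneg fun p => ?_
  simp only [Pi.zero_apply]
  positivity

variable {n l : ℕ}

lemma path_bound (h : Nonempty (VV n l)) (Z Z' : Finset (Fin n) → ℝ) {t : ℝ} (ht : 0 < t) :
    ∑ S, (max (ff n l Z - ff n l (Function.update Z S (Z' S))) 0) ^ 2 ≤
      4 * (l : ℝ) ^ 2 * (t + (∑ S ∈ T2 n, (Z S - Z' S) ^ 8) / t ^ 3) := by
  obtain ⟨v, hv, he⟩ := exists_max h Z
  have h1 : ∀ S : Finset (Fin n), (max (ff n l Z - ff n l (Function.update Z S (Z' S))) 0) ^ 2 ≤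
      if S ∈ T2 n then (Z S - Z' S) ^ 2 * aa S v ^ 2 else 0 := by
    intro S
    have h2 : ff n l Z - ff n l (Function.update Z S (Z' S)) ≤
        if S ∈ T2 n then (Z S - Z' S) * aa S v else 0 := by
      have h3 := le_ff (Function.update Z S (Z' S)) hv
      have h4 := qf_sub Z (Function.update Z S (Z' S)) v
      have h5 : ∑ T ∈ T2 n, (Z T - Function.update Z S (Z' S) T) * aa T v =
          if S ∈ T2 n then (Z S - Z' S) * aa S v else 0 := by
        rw [← Finset.sum_ite_eq' (T2 n) S (fun T => (Z T - Z' T) * aa T v)]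
        refine Finset.sum_congr rfl fun T _ => ?_
        by_cases hT : T = S
        · subst hT
          simp
        · simp [Function.update_of_ne hT, hT]
      rw [h5] at h4
      rw [he]
      linarith
    split_ifs at h2 ⊢ with hS
    · have h6 : max (ff n l Z - ff n l (Function.update Z S (Z' S))) 0 ≤
          |(Z S - Z' S) * aa S v| := max_le (h2.trans (le_abs_self _)) (abs_nonneg _)
      calc _ ≤ |(Z S - Z' S) * aa S v| ^ 2 := by
            exact pow_le_pow_left₀ (le_max_right _ _) h6 2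
        _ = _ := by rw [sq_abs, mul_pow]
    · rw [max_eq_right h2]
      simp
  calc ∑ S, (max (ff n l Z - ff n l (Function.update Z S (Z' S))) 0) ^ 2
      ≤ ∑ S, if S ∈ T2 n then (Z S - Z' S) ^ 2 * aa S v ^ 2 else 0 :=
        Finset.sum_le_sum fun S _ => h1 S
    _ = ∑ S ∈ T2 n, (Z S - Z' S) ^ 2 * aa S v ^ 2 := by
        rw [← Finset.sum_filter, Finset.filter_mem_eq_inter, Finset.univ_inter]
    _ ≤ ∑ S ∈ T2 n, (t * aa S v ^ 2 + (Z S - Z' S) ^ 8 / t ^ 3 * (4 * (l : ℝ) ^ 2)) := by
        refine Finset.sum_le_sum fun S hS => ?_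
        have ha : aa S v ^ 2 ≤ 4 * (l : ℝ) ^ 2 :=
          (Finset.single_le_sum (f := fun S => aa S v ^ 2) (fun _ _ => sq_nonneg _) hS).trans
            (sum_aa_sq v hv)
        have hy : (Z S - Z' S) ^ 2 ≤ t + (Z S - Z' S) ^ 8 / t ^ 3 := by
          set y := (Z S - Z' S) ^ 2 with hydef
          have hy0 : 0 ≤ y := sq_nonneg _
          have e : (Z S - Z' S) ^ 8 = y ^ 4 := by rw [hydef]; ring
          rw [e]
          rcases le_total y t with hyt | hyt
          · have : 0 ≤ y ^ 4 / t ^ 3 := by positivity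
            linarith
          · have : y ≤ y ^ 4 / t ^ 3 := by
              rw [le_div_iff₀ (by positivity)]
              have := pow_le_pow_left₀ ht.le hyt 3
              nlinarith
            linarith
        have h8 : 0 ≤ (Z S - Z' S) ^ 8 / t ^ 3 := by positivity
        calc (Z S - Z' S) ^ 2 * aa S v ^ 2 ≤ (t + (Z S - Z' S) ^ 8 / t ^ 3) * aa S v ^ 2 :=
              mul_le_mul_of_nonneg_right hy (sq_nonneg _)
          _ = t * aa S v ^ 2 + (Z S - Z' S) ^ 8 / t ^ 3 * aa S v ^ 2 := by ring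
          _ ≤ _ := by
              gcongr
    _ = t * ∑ S ∈ T2 n, aa S v ^ 2 + 4 * (l : ℝ) ^ 2 * ((∑ S ∈ T2 n, (Z S - Z' S) ^ 8) / t ^ 3) := by
        rw [Finset.sum_add_distrib, ← Finset.mul_sum, ← Finset.sum_mul, ← Finset.sum_div]
        ring
    _ ≤ t * (4 * (l : ℝ) ^ 2) + 4 * (l : ℝ) ^ 2 * ((∑ S ∈ T2 n, (Z S - Z' S) ^ 8) / t ^ 3) := by
        have := mul_le_mul_of_nonneg_left (sum_aa_sq v hv) ht.le
        linarith
    _ = _ := by ring

lemma inf2_eq (G : (Finset (Fin n) → ℝ) → ℝ) (hG : Measurable G) (B : ℝ)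
    (hB : ∀ ω, |G ω| ≤ B) (j : Finset (Fin n)) :
    Inf2 (gaussianReal 0 1) G j =
      2 * ∫ θ, (max (G (sel ∅ θ) - G (sel {j} θ)) 0) ^ 2
        ∂(QQ (Finset (Fin n)) (gaussianReal 0 1)) := by
  have gm : ∀ S : Finset (Finset (Fin n)), Measurable fun θ => G (sel S θ) :=
    fun S => hG.comp (meas_sel S)
  have hsym : ∫ θ, (max (G (sel {j} θ) - G (sel ∅ θ)) 0) ^ 2
      ∂(QQ (Finset (Fin n)) (gaussianReal 0 1)) =
      ∫ θ, (max (G (sel ∅ θ) - G (sel {j} θ)) 0) ^ 2
        ∂(QQ (Finset (Fin n)) (gaussianReal 0 1)) := by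
    rw [← int_mp (mp_sw (gaussianReal 0 1) {j})
      (g := fun θ => (max (G (sel {j} θ) - G (sel ∅ θ)) 0) ^ 2)
      ((((gm _).sub (gm _)).max measurable_const).pow_const 2)]
    apply integral_congr_ae
    refine Filter.Eventually.of_forall fun θ => ?_
    have h1 : sel {j} (sw {j} θ) = sel ∅ θ := by
      funext i
      by_cases hi : i = j <;> simp [sel, sw, hi]
    simp only [sel_empty_sw, h1]
  have hbd : ∀ (S T : Finset (Finset (Fin n))), Integrable (fun θ =>
      (max (G (sel S θ) - G (sel T θ)) 0) ^ 2) (QQ (Finset (Fin n)) (gaussianReal 0 1)) := by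
    intro S T
    refine int_bd ((((gm _).sub (gm _)).max measurable_const).pow_const 2)
      (C := (2 * B) ^ 2) fun θ => ?_
    rw [abs_of_nonneg (sq_nonneg _)]
    apply pow_le_pow_left₀ (le_max_right _ _)
    have h1 := abs_le.1 (hB (sel S θ))
    have h2 := abs_le.1 (hB (sel T θ))
    exact max_le (by linarith [h1.2, h2.1]) (by linarith [h1.1, h1.2])
  unfold Inf2
  have h1 : ∀ θ : Finset (Fin n) → ℝ × ℝ, (G (sel ∅ θ) - G (sel {j} θ)) ^ 2 =
      (max (G (sel ∅ θ) - G (sel {j} θ)) 0) ^ 2 + (max (G (sel {j} θ) - G (sel ∅ θ)) 0) ^ 2 := by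
    intro θ
    rcases le_total (G (sel ∅ θ)) (G (sel {j} θ)) with h | h
    · rw [max_eq_right (by linarith : G (sel ∅ θ) - G (sel {j} θ) ≤ 0),
        max_eq_left (by linarith : 0 ≤ G (sel {j} θ) - G (sel ∅ θ))]
      ring
    · rw [max_eq_left (by linarith : 0 ≤ G (sel ∅ θ) - G (sel {j} θ)),
        max_eq_right (by linarith : G (sel {j} θ) - G (sel ∅ θ) ≤ 0)]
      ring
  simp only [h1]
  rw [integral_add (hbd _ _) (hbd _ _), hsym]
  ring

lemma card_T2 : ((T2 n).card : ℝ) ≤ (n : ℝ) ^ 2 := by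
  have hsub : T2 n ⊆ (Finset.univ : Finset (Fin n × Fin n)).image (fun p => {p.1, p.2}) := by
    intro S hS
    rw [mem_T2, Finset.card_eq_two] at hS
    obtain ⟨x, y, hxy, rfl⟩ := hS
    exact Finset.mem_image.2 ⟨(x, y), by simp, rfl⟩
  have h1 := (Finset.card_le_card hsub).trans Finset.card_image_le
  have h2 : (Finset.univ : Finset (Fin n × Fin n)).card = n ^ 2 := by
    rw [Finset.card_univ, Fintype.card_prod, Fintype.card_fin, sq]
  rw [h2] at h1
  exact_mod_cast h1

/-- the variance bound -/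
theorem var_bound (h : Nonempty (VV n l)) (hn : 0 < n) {B : ℝ} (hB : 0 ≤ B) :
    ∫ Z, tr B (ff n l Z) ^ 2 ∂(Measure.pi fun _ : Finset (Fin n) => gaussianReal 0 1) -
      (∫ Z, tr B (ff n l Z) ∂(Measure.pi fun _ : Finset (Fin n) => gaussianReal 0 1)) ^ 2 ≤
      4 * (l : ℝ) ^ 2 * (1 + C8) * Real.sqrt n := by
  have hm : Measurable (fun Z => tr B (ff n l Z)) :=
    (tr_measurable B).comp (continuous_ff h).measurable
  have h1 := efron (μ := gaussianReal 0 1) (fun Z => tr B (ff n l Z)) hm B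
    (fun Z => tr_abs hB _)
  refine h1.trans ?_
  have gm : ∀ S : Finset (Finset (Fin n)), Measurable fun θ => tr B (ff n l (sel S θ)) :=
    fun S => hm.comp (meas_sel S)
  have hbd : ∀ (S T : Finset (Finset (Fin n))), Integrable (fun θ =>
      (max (tr B (ff n l (sel S θ)) - tr B (ff n l (sel T θ))) 0) ^ 2)
      (QQ (Finset (Fin n)) (gaussianReal 0 1)) := by
    intro S T
    refine int_bd ((((gm _).sub (gm _)).max measurable_const).pow_const 2)
      (C := (2 * B) ^ 2) fun θ => ?_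
    rw [abs_of_nonneg (sq_nonneg _)]
    apply pow_le_pow_left₀ (le_max_right _ _)
    have h1 := abs_le.1 (tr_abs hB (ff n l (sel S θ)))
    have h2 := abs_le.1 (tr_abs hB (ff n l (sel T θ)))
    exact max_le (by linarith [h1.2, h2.1]) (by linarith [h1.1, h1.2])
  simp only [inf2_eq _ hm B (fun Z => tr_abs hB _)]
  rw [← Finset.mul_sum, ← mul_assoc, show (1 / 2 : ℝ) * 2 = 1 by norm_num, one_mul,
    ← integral_finsetSum _ fun j _ => hbd _ _]
  have ht : 0 < Real.sqrt n := Real.sqrt_pos.2 (by exact_mod_cast hn)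
  set t := Real.sqrt n with htdef
  have hmp : ∀ S : Finset (Fin n), MeasurePreserving (fun θ : Finset (Fin n) → ℝ × ℝ => θ S)
      (QQ (Finset (Fin n)) (gaussianReal 0 1)) ((gaussianReal 0 1).prod (gaussianReal 0 1)) :=
    fun S => measurePreserving_eval (fun _ : Finset (Fin n) =>
      (gaussianReal 0 1).prod (gaussianReal 0 1)) S
  have hint : ∀ S : Finset (Fin n), Integrable (fun θ : Finset (Fin n) → ℝ × ℝ =>
      ((θ S).1 - (θ S).2) ^ 8) (QQ (Finset (Fin n)) (gaussianReal 0 1)) := by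
    intro S
    exact (hmp S).integrable_comp_of_integrable int8
  have hval : ∀ S : Finset (Fin n), ∫ θ : Finset (Fin n) → ℝ × ℝ,
      ((θ S).1 - (θ S).2) ^ 8 ∂(QQ (Finset (Fin n)) (gaussianReal 0 1)) = C8 := by
    intro S
    exact int_mp (hmp S) (g := fun p : ℝ × ℝ => (p.1 - p.2) ^ 8) (by fun_prop)
  calc ∫ θ, ∑ j, (max (tr B (ff n l (sel ∅ θ)) - tr B (ff n l (sel {j} θ))) 0) ^ 2
        ∂(QQ (Finset (Fin n)) (gaussianReal 0 1))
      ≤ ∫ θ, 4 * (l : ℝ) ^ 2 * (t + (∑ S ∈ T2 n, ((θ S).1 - (θ S).2) ^ 8) / t ^ 3)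
        ∂(QQ (Finset (Fin n)) (gaussianReal 0 1)) := by
        apply integral_mono (integrable_finsetSum _ fun j _ => hbd _ _)
        · apply Integrable.const_mul
          apply Integrable.add (integrable_const _)
          apply Integrable.div_const
          exact integrable_finsetSum _ fun S _ => hint S
        · intro θ
          simp only
          refine (Finset.sum_le_sum fun j _ => ?_).trans
            ((path_bound h (sel ∅ θ) (sel Finset.univ θ) ht).trans (le_of_eq ?_))
          · rw [sel_single j θ]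
            exact pow_le_pow_left₀ (le_max_right _ _) (tr_pos _ _ _) 2
          · simp [sel]
    _ = 4 * (l : ℝ) ^ 2 * (t + ((T2 n).card * C8) / t ^ 3) := by
        rw [integral_const_mul, integral_add (integrable_const _)
          ((integrable_finsetSum _ fun S _ => hint S).div_const _), integral_div,
          integral_finsetSum _ fun S _ => hint S]
        simp [hval]
    _ ≤ 4 * (l : ℝ) ^ 2 * (1 + C8) * t := by
        have ht2 : t ^ 2 = n := Real.sq_sqrt (by positivity)
        have h3 : ((T2 n).card * C8) / t ^ 3 ≤ C8 * t := by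
          rw [div_le_iff₀ (by positivity)]
          have e : C8 * t * t ^ 3 = (n : ℝ) ^ 2 * C8 := by rw [← ht2]; ring
          rw [e]
          exact mul_le_mul_of_nonneg_right card_T2 C8_nonneg
        calc 4 * (l : ℝ) ^ 2 * (t + ((T2 n).card * C8) / t ^ 3)
            ≤ 4 * (l : ℝ) ^ 2 * (t + C8 * t) := by gcongr
          _ = _ := by ring

end Pool.Agent.R967.KM
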